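import Pool.Agent.Q145.SZ.Stm

/-!
# From tuples to sets
-/

set_option autoImplicit false

namespace Pool.Agent.Q145.TS

open Finset
open Pool.Agent.Q145.SZ

open scoped Classical

/-- the number of classes modulo `p` met by `A` -/
def cl (A : Finset ℕ) (p : ℕ) : ℕ := (A.image (· % p)).card

/-- admissible sets -/
def AdmA (A : Finset ℕ) : Prop := ∀ p : ℕ, p.Prime → cl A p < p

theorem nu_image {k : ℕ} (s : Fin k → ℕ) (p : ℕ) : nu s p = cl (univ.image s) p := by
  unfold nu cl
  rw [image_image]
  rfl

theorem adm_image {k : ℕ} (s : Fin k → ℕ) : Adm s ↔ AdmA (univ.image s) := by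
  unfold Adm AdmA
  simp only [nu_image]

theorem cl_succ (A : Finset ℕ) {p : ℕ} (_hp : 0 < p) : cl (A.image (· + 1)) p = cl A p := by
  unfold cl
  have h : (A.image (· + 1)).image (· % p) = (A.image (· % p)).image fun r => (r + 1) % p := by
    rw [image_image, image_image]
    refine image_congr fun a _ => ?_
    simp [Nat.add_mod]
  rw [h]
  apply card_image_of_injOn
  intro a ha b hb hab
  simp only [coe_image, Set.mem_image, mem_coe] at ha hb
  obtain ⟨x, -, rfl⟩ := ha
  obtain ⟨y, -, rfl⟩ := hb
  simp only at hab ⊢
  have h1 : (x % p + 1) ≡ (y % p + 1) [MOD p] := hab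
  have h2 := Nat.ModEq.add_right_cancel' 1 h1
  have h3 : x % p % p = y % p % p := h2
  rwa [Nat.mod_mod, Nat.mod_mod] at h3

theorem adm_succ (A : Finset ℕ) : AdmA (A.image (· + 1)) ↔ AdmA A := by
  unfold AdmA
  exact forall_congr' fun p => forall_congr' fun hp => by rw [cl_succ A hp.pos]

/-- the injective admissible tuples -/
noncomputable def IT (X k : ℕ) : Finset (Fin k → ℕ) := (AT X k).filter Function.Injective

/-- the admissible `k`-sets in `[1, X]` -/
noncomputable def SS (X k : ℕ) : Finset (Finset ℕ) := ((Icc 1 X).powersetCard k).filter AdmA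

/-- the admissible `k`-sets in `[0, H]` -/
noncomputable def S0 (H k : ℕ) : Finset (Finset ℕ) := ((range (H + 1)).powersetCard k).filter AdmA

theorem mem_AT {X k : ℕ} (s : Fin k → ℕ) : s ∈ AT X k ↔ (∀ i, 1 ≤ s i ∧ s i ≤ X) ∧ Adm s := by
  unfold AT
  simp only [mem_filter, Fintype.mem_piFinset, mem_Icc]

theorem fiber {X k : ℕ} {A : Finset ℕ} (hA : A ∈ SS X k) : ((IT X k).filter fun s => univ.image s = A).card = k.factorial := by
  unfold SS at hA
  rw [mem_filter, mem_powersetCard] at hA
  obtain ⟨⟨hAX, hAk⟩, hAa⟩ := hA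
  have e0 : Fin k ≃ A := (A.equivFinOfCardEq hAk).symm
  set s₀ : Fin k → ℕ := fun i => (e0 i : ℕ) with hs₀
  have hs₀i : Function.Injective s₀ := fun i j h => e0.injective (Subtype.ext h)
  have him : ∀ σ : Equiv.Perm (Fin k), univ.image (s₀ ∘ σ) = A := by
    intro σ
    ext a
    simp only [mem_image, mem_univ, true_and, Function.comp_apply]
    constructor
    · rintro ⟨i, rfl⟩
      exact (e0 (σ i)).2
    · intro ha
      refine ⟨σ.symm (e0.symm ⟨a, ha⟩), ?_⟩
      simp [hs₀]
  have key : (IT X k).filter (fun s => univ.image s = A) = (univ : Finset (Equiv.Perm (Fin k))).image fun σ : Equiv.Perm (Fin k) => s₀ ∘ (σ : Fin k → Fin k) := by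
    ext s
    simp only [mem_filter, mem_image, mem_univ, true_and]
    constructor
    · rintro ⟨hs, hsA⟩
      unfold IT at hs
      rw [mem_filter] at hs
      have hmem : ∀ i, s i ∈ A := fun i => by
        rw [← hsA]
        exact mem_image_of_mem _ (mem_univ i)
      set g : Fin k → Fin k := fun i => e0.symm ⟨s i, hmem i⟩ with hg
      have hgi : Function.Injective g := fun i j h => by
        have := e0.symm.injective h
        exact hs.2 (Subtype.ext_iff.1 this)
      refine ⟨Equiv.ofBijective g (Finite.injective_iff_bijective.1 hgi), ?_⟩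
      funext i
      simp [hg, hs₀]
    · rintro ⟨σ, rfl⟩
      refine ⟨?_, him σ⟩
      unfold IT
      rw [mem_filter, mem_AT]
      refine ⟨⟨fun i => ?_, ?_⟩, hs₀i.comp σ.injective⟩
      · have := hAX (e0 (σ i)).2
        rw [mem_Icc] at this
        exact this
      · rw [adm_image, him σ]
        exact hAa
  rw [key, card_image_of_injective]
  · rw [card_univ, Fintype.card_perm, Fintype.card_fin]
  · intro σ τ h
    ext i
    have := congrFun h i
    exact congrArg Fin.val (hs₀i this)

theorem card_IT (X k : ℕ) (P : Finset ℕ → Prop) :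
    ((IT X k).filter fun s => P (univ.image s)).card = k.factorial * ((SS X k).filter P).card := by
  have hmap : ∀ s ∈ (IT X k).filter (fun s => P (univ.image s)), univ.image s ∈ (SS X k).filter P := by
    intro s hs
    rw [mem_filter] at hs ⊢
    refine ⟨?_, hs.2⟩
    have h1 := hs.1
    unfold IT at h1
    rw [mem_filter, mem_AT] at h1
    unfold SS
    rw [mem_filter, mem_powersetCard]
    refine ⟨⟨?_, ?_⟩, (adm_image s).1 h1.1.2⟩
    · intro a ha
      rw [mem_image] at ha
      obtain ⟨i, -, rfl⟩ := ha
      rw [mem_Icc]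
      exact h1.1.1 i
    · rw [card_image_of_injective _ h1.2, card_univ, Fintype.card_fin]
  rw [card_eq_sum_card_fiberwise hmap, mul_comm, ← smul_eq_mul, ← sum_const]
  refine sum_congr rfl fun A hA => ?_
  rw [mem_filter] at hA
  rw [← fiber hA.1]
  congr 1
  ext s
  simp only [mem_filter]
  constructor
  · rintro ⟨⟨h1, h2⟩, h3⟩
    exact ⟨h1, h3⟩
  · rintro ⟨h1, h3⟩
    exact ⟨⟨h1, h3 ▸ hA.2⟩, h3⟩

theorem noninj_pair (X k : ℕ) {i j : Fin k} (hij : i ≠ j) :
    ((AT X k).filter fun s => s i = s j).card * (X / PW k) ≤ (AT X k).card := by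
  have hW : 0 < PW k := Nat.pos_of_ne_zero (NeZero.ne _)
  rw [← card_range (X / PW k), ← card_product]
  apply card_le_card_of_injOn (fun q : (Fin k → ℕ) × ℕ => Function.update q.1 j ((q.1 i - 1) % PW k + 1 + PW k * q.2))
  · rintro ⟨s, t⟩ hq
    simp only [coe_product, Set.mem_prod, mem_coe, mem_filter, mem_range] at hq
    obtain ⟨⟨hs, hsij⟩, ht⟩ := hq
    simp only [mem_coe]
    rw [mem_AT] at hs ⊢
    have hv1 : 1 ≤ (s i - 1) % PW k + 1 + PW k * t := by omega
    have hv2 : (s i - 1) % PW k + 1 + PW k * t ≤ X := by
      have h1 := Nat.mod_lt (s i - 1) hW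
      have h2 : PW k * (t + 1) ≤ PW k * (X / PW k) := Nat.mul_le_mul_left _ ht
      have h3 := Nat.mul_div_le X (PW k)
      rw [mul_add, mul_one] at h2
      omega
    constructor
    · intro l
      by_cases hl : l = j
      · subst hl
        rw [Function.update_self]
        exact ⟨hv1, hv2⟩
      · rw [Function.update_of_ne hl]
        exact hs.1 l
    · intro p hp
      by_cases hpk : p ≤ k
      · have hpW : p ∣ PW k := by
          unfold PW
          exact dvd_prod_of_mem (fun q => q) (by rw [mem_filter, mem_Icc]; exact ⟨⟨hp.one_le, hpk⟩, hp⟩)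
        have hmod : ∀ l, Function.update s j ((s i - 1) % PW k + 1 + PW k * t) l % p = s l % p := by
          intro l
          by_cases hl : l = j
          · subst hl
            rw [Function.update_self, ← hsij]
            have h0 : (s i - 1) % PW k + 1 + PW k * t ≡ s i [MOD p] := by
              have h1 : (s i - 1) % PW k ≡ s i - 1 [MOD p] := (Nat.mod_modEq (s i - 1) (PW k)).of_dvd hpW
              have h2 : PW k * t ≡ 0 [MOD p] := (Nat.modEq_zero_iff_dvd).2 (Dvd.dvd.mul_right hpW t)
              have h3 := (h1.add_right 1).add h2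
              have h4 : s i - 1 + 1 + 0 = s i := by
                have := (hs.1 i).1
                omega
              rwa [h4] at h3
            exact h0
          · rw [Function.update_of_ne hl]
        have : nu (Function.update s j ((s i - 1) % PW k + 1 + PW k * t)) p = nu s p := by
          unfold nu
          simp only [hmod]
        rw [this]
        exact hs.2 p hp
      · unfold nu
        refine lt_of_le_of_lt card_image_le ?_
        rw [card_univ, Fintype.card_fin]
        omega
  · rintro ⟨s, t⟩ hq ⟨s', t'⟩ hq' h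
    simp only [coe_product, Set.mem_prod, mem_coe, mem_filter, mem_range] at hq hq'
    have h1 : ∀ l, l ≠ j → s l = s' l := by
      intro l hl
      have := congrFun h l
      simpa [Function.update_of_ne hl] using this
    have h2 : s = s' := by
      funext l
      by_cases hl : l = j
      · subst hl
        rw [← hq.1.2, ← hq'.1.2]
        exact h1 i hij
      · exact h1 l hl
    subst h2
    have h3 := congrFun h j
    simp only [Function.update_self] at h3
    have h4 : PW k * t = PW k * t' := by omega
    rw [Nat.eq_of_mul_eq_mul_left hW h4]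

theorem noninj (X k : ℕ) : ((AT X k).filter fun s => ¬ Function.Injective s).card * (X / PW k) ≤ k ^ 2 * (AT X k).card := by
  have h1 : (AT X k).filter (fun s => ¬ Function.Injective s) ⊆
      ((univ : Finset (Fin k × Fin k)).filter fun q => q.1 ≠ q.2).biUnion fun q => (AT X k).filter fun s => s q.1 = s q.2 := by
    intro s hs
    rw [mem_filter] at hs
    rw [mem_biUnion]
    have h2 := hs.2
    unfold Function.Injective at h2
    push Not at h2
    obtain ⟨i, j, h3, h4⟩ := h2
    exact ⟨(i, j), by simp [h4], by simp [hs.1, h3]⟩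
  calc ((AT X k).filter fun s => ¬ Function.Injective s).card * (X / PW k)
      ≤ (∑ q ∈ (univ : Finset (Fin k × Fin k)).filter (fun q => q.1 ≠ q.2), ((AT X k).filter fun s => s q.1 = s q.2).card) * (X / PW k) :=
        Nat.mul_le_mul_right _ ((card_le_card h1).trans card_biUnion_le)
    _ = ∑ q ∈ (univ : Finset (Fin k × Fin k)).filter (fun q => q.1 ≠ q.2), ((AT X k).filter fun s => s q.1 = s q.2).card * (X / PW k) := sum_mul _ _ _
    _ ≤ ∑ _q ∈ (univ : Finset (Fin k × Fin k)).filter (fun q => q.1 ≠ q.2), (AT X k).card := by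
        refine sum_le_sum fun q hq => ?_
        rw [mem_filter] at hq
        exact noninj_pair X k hq.2
    _ ≤ ∑ _q : Fin k × Fin k, (AT X k).card := sum_le_sum_of_subset (filter_subset _ _)
    _ = k ^ 2 * (AT X k).card := by
        rw [sum_const, smul_eq_mul, card_univ, Fintype.card_prod, Fintype.card_fin, sq]

/-- **From tuples to sets.** -/
theorem transfer {X k : ℕ} {ε : ℝ} (P : Finset ℕ → Prop) (hW : 2 * (k ^ 2 + 1) ≤ X / PW k)
    (h : (((IT X k).filter fun s => P (univ.image s)).card : ℝ) ≤ ε * (AT X k).card) (hε : 0 ≤ ε) :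
    (((SS X k).filter P).card : ℝ) ≤ 2 * ε * (SS X k).card := by
  have h1 := card_IT X k P
  have h2 : (IT X k).card = k.factorial * (SS X k).card := by
    have := card_IT X k (fun _ => True)
    simpa using this
  have h3 : (AT X k).card = (IT X k).card + ((AT X k).filter fun s => ¬ Function.Injective s).card := by
    unfold IT
    exact (card_filter_add_card_filter_not _).symm
  have h4 : 2 * ((AT X k).filter fun s => ¬ Function.Injective s).card ≤ (AT X k).card := by
    have h5 := noninj X k
    set a := ((AT X k).filter fun s => ¬ Function.Injective s).card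
    have h6 : a * (2 * (k ^ 2 + 1)) ≤ (k ^ 2 + 1) * (AT X k).card :=
      ((Nat.mul_le_mul_left a hW).trans h5).trans (Nat.mul_le_mul_right _ (by omega))
    have h7 : (k ^ 2 + 1) * (2 * a) ≤ (k ^ 2 + 1) * (AT X k).card := by
      calc (k ^ 2 + 1) * (2 * a) = a * (2 * (k ^ 2 + 1)) := by ring
        _ ≤ _ := h6
    exact Nat.le_of_mul_le_mul_left h7 (by omega)
  have h5 : (AT X k).card ≤ 2 * (k.factorial * (SS X k).card) := by omega
  have hk : (0 : ℝ) < k.factorial := by exact_mod_cast k.factorial_pos
  have h6 : (k.factorial : ℝ) * ((SS X k).filter P).card ≤ ε * (2 * (k.factorial * (SS X k).card)) := by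
    have h8 : ((AT X k).card : ℝ) ≤ 2 * (k.factorial * (SS X k).card) := by exact_mod_cast h5
    rw [h1] at h
    push_cast at h
    exact h.trans (mul_le_mul_of_nonneg_left h8 hε)
  have h9 : (k.factorial : ℝ) * ((SS X k).filter P).card ≤ k.factorial * (2 * ε * (SS X k).card) := by
    linarith
  exact le_of_mul_le_mul_left h9 hk

theorem shift (H k : ℕ) (P : Finset ℕ → Prop) :
    ((S0 H k).filter fun A => P (A.image (· + 1))).card = ((SS (H + 1) k).filter P).card := by
  have hinj : Function.Injective fun A : Finset ℕ => A.image (· + 1) := image_injective (add_left_injective 1)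
  rw [← card_image_of_injective _ hinj]
  congr 1
  ext B
  simp only [mem_image, mem_filter]
  constructor
  · rintro ⟨A, ⟨hA, hP⟩, rfl⟩
    refine ⟨?_, hP⟩
    unfold S0 at hA
    unfold SS
    rw [mem_filter, mem_powersetCard] at hA ⊢
    refine ⟨⟨?_, ?_⟩, (adm_succ A).2 hA.2⟩
    · intro b hb
      rw [mem_image] at hb
      obtain ⟨a, ha, rfl⟩ := hb
      have := hA.1.1 ha
      rw [mem_range] at this
      rw [mem_Icc]
      omega
    · rw [card_image_of_injective _ (add_left_injective 1)]
      exact hA.1.2
  · rintro ⟨hB, hP⟩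
    unfold SS at hB
    rw [mem_filter, mem_powersetCard] at hB
    have hBB : (B.image (· - 1)).image (· + 1) = B := by
      rw [image_image]
      ext b
      simp only [mem_image, Function.comp_apply]
      constructor
      · rintro ⟨c, hc, rfl⟩
        have := hB.1.1 hc
        rw [mem_Icc] at this
        rwa [Nat.sub_add_cancel this.1]
      · intro hb
        have := hB.1.1 hb
        rw [mem_Icc] at this
        exact ⟨b, hb, Nat.sub_add_cancel this.1⟩
    refine ⟨B.image (· - 1), ⟨?_, ?_⟩, hBB⟩
    · unfold S0
      rw [mem_filter, mem_powersetCard]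
      refine ⟨⟨?_, ?_⟩, ?_⟩
      · intro a ha
        rw [mem_image] at ha
        obtain ⟨b, hb, rfl⟩ := ha
        have := hB.1.1 hb
        rw [mem_Icc] at this
        rw [mem_range]
        omega
      · rw [← hB.1.2]
        conv_rhs => rw [← hBB]
        rw [card_image_of_injective _ (add_left_injective 1)]
      · rw [← adm_succ, hBB]
        exact hB.2
    · rw [hBB]
      exact hP

end Pool.Agent.Q145.TS
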